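import Pool.Agent.Run7.h96.K12

/-!
Global conformal invariants of hypersurfaces: the submanifold decomposition in codimension one,
up to the intrinsic theorem.
-/

open Run7.h96.St

namespace Pool.Agent.Results.MP_94a197_gt.Hypersurface

/-- Let `P` be a universal formula for a scalar of a hypersurface of a Riemannian manifold of
dimension `k + 1`, with conformally invariant total integral for the hypersurface `T^k` of
`ℝ × T^k` and all metrics on `ℝ × T^k`. Then `P = P0 + W + div V` for all metrics on `ℝ^{k+1}`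
(hypersurface `{x₀ = 0}`), where `W` is a local conformal invariant of weight `k`, `P0` is a natural
scalar of the induced metric, homogeneous of weight `k`, whose total integral is conformally
invariant, and `V` is natural.
If `P` does not depend on the choice of the unit normal, neither do `W` and `V`. -/
theorem result (k : ℕ) (hk : 1 ≤ k) (P : Fml Bas rk 0)
    (hP : ∀ g : Fin (k + 1) → Fin (k + 1) → Fn (k + 1), IsMet g → (∀ i j, PerX (g i j)) →
      ∀ ε : ℝ, (ε = 1 ∨ ε = -1) → ∀ ω, Smooth ω → PerX ω →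
      tint (ind (conf ω g)) (hval P (conf ω g) ε ![]) = tint (ind g) (hval P g ε ![])) :
    ∃ (P0 : Fml Empty (fun _ => 0) 0) (W : Fml Bas rk 0) (V : Fml Bas rk 1),
      (∀ g : Fin (k + 1) → Fin (k + 1) → Fn (k + 1), IsMet g → ∀ ε : ℝ, (ε = 1 ∨ ε = -1) → ∀ y,
        hval P g ε ![] y = ival P0 (ind g) y + hval W g ε ![] y
          + dvg (ind g) (fun a => hval V g ε (fun _ => a.succ)) y) ∧
      (∀ g : Fin (k + 1) → Fin (k + 1) → Fn (k + 1), IsMet g → ∀ ε : ℝ, (ε = 1 ∨ ε = -1) →
        ∀ ω, Smooth ω → ∀ y, hval W (conf ω g) ε ![] y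
          = Real.exp (-(k * ω (Fin.cons 0 y))) * hval W g ε ![] y) ∧
      (∀ h : Fin k → Fin k → Fn k, IsMet h → (∀ a b, Per (h a b)) → ∀ χ, Smooth χ → Per χ →
        tint (conf χ h) (ival P0 (conf χ h)) = tint h (ival P0 h)) ∧
      (∀ h : Fin k → Fin k → Fn k, IsMet h → ∀ c : ℝ, 0 < c → ∀ y,
        ival P0 (fun a b => c ^ 2 • h a b) y = (c ^ k)⁻¹ * ival P0 h y) ∧
      ((∀ g : Fin (k + 1) → Fin (k + 1) → Fn (k + 1), IsMet g → (∀ i j, PerX (g i j)) →
          hval P g (-1) ![] = hval P g 1 ![]) →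
        ∀ g : Fin (k + 1) → Fin (k + 1) → Fn (k + 1), IsMet g →
          hval W g (-1) ![] = hval W g 1 ![] ∧
          ∀ a : Fin k, hval V g (-1) (fun _ => a.succ) = hval V g 1 (fun _ => a.succ)) :=
  Run7.h96.Br.main hk P hP

end Pool.Agent.Results.MP_94a197_gt.Hypersurface
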